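import Pool.Agent.Helper15.FT.CoreL

/-!
# A lower bound for the order of tournaments with property `S_k`, for every `k ≥ 4`

For `k ≥ 4` every tournament with property `S_k` has at least `2^(k-4) (8 k + 21) - 1` vertices.  For
`k = 4` this is `m(4) ≥ 52`, so the value `2^k (k - 1) + 3 = 51` proposed by Szekeres and Szekeres is
wrong for `k = 4`.  The main part of the proof is in `Pool.Agent.Helper15.FT.CoreL`: for `L ≥ 4` a
tournament on `8 L + 11` vertices has a triple of vertices with at most `L - 1` common dominators.
-/

namespace Pool.Agent.Results.MP_806e0d_co.EveryK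

open Finset Pool.Agent.Helper15.FTL

/-- `dom` is the arc relation of a tournament: there are no loops, and for any two distinct
vertices exactly one of the two arcs is present. -/
structure IsTournament {V : Type*} (dom : V → V → Prop) : Prop where
  irrefl : ∀ v, ¬ dom v v
  exactly_one : ∀ u v, u ≠ v → (dom u v ↔ ¬ dom v u)

/-- Property `S_k`: every set of exactly `k` vertices is dominated by some vertex. -/
def PropertyS {V : Type*} (dom : V → V → Prop) (k : ℕ) : Prop :=
  ∀ S : Finset V, S.card = k → ∃ x, ∀ s ∈ S, dom x s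

/-- every set of at most `j` vertices has at least `L` common dominators -/
def DomBy {V : Type*} (dom : V → V → Prop) (j L : ℕ) : Prop :=
  ∀ R : Finset V, R.card ≤ j → ∃ D : Finset V, L ≤ D.card ∧ ∀ x ∈ D, ∀ s ∈ R, dom x s

lemma anti {V : Type} {dom : V → V → Prop} (hT : IsTournament dom) (u v : V) (huv : dom u v) :
    ¬ dom v u := by
  have hne : u ≠ v := by
    rintro rfl
    exact hT.irrefl _ huv
  exact (hT.exactly_one u v hne).1 huv

/-- property `S_k` gives `k + 1` common dominators for all sets of at most `k - 1` vertices -/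
lemma domBy_of_S {V : Type} [Fintype V] {dom : V → V → Prop} (hT : IsTournament dom) {k : ℕ}
    (hk : 1 ≤ k) (hV : k ≤ Fintype.card V) (hS : PropertyS dom k) : DomBy dom (k - 1) (k + 1) := by
  classical
  intro R hR
  -- every set of at most `k` vertices is dominated
  have hdom : ∀ R : Finset V, R.card ≤ k → ∃ y, ∀ s ∈ R, dom y s := by
    intro R hR
    obtain ⟨S', h1, h2⟩ := exists_superset_card_eq hR hV
    obtain ⟨y, hy⟩ := hS S' h2
    exact ⟨y, fun s hs => hy s (h1 hs)⟩
  refine ⟨univ.filter fun x => ∀ s ∈ R, dom x s, ?_, fun x hx => (mem_filter.1 hx).2⟩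
  by_contra hcon
  push Not at hcon
  obtain ⟨x, hx⟩ := hdom _ (Nat.lt_succ_iff.1 hcon)
  obtain ⟨y, hy⟩ := hdom (insert x R) (by
    have := card_insert_le x R
    omega)
  have hyD : y ∈ univ.filter fun x => ∀ s ∈ R, dom x s :=
    mem_filter.2 ⟨mem_univ _, fun s hs => hy s (mem_insert_of_mem hs)⟩
  exact anti hT _ _ (hx y hyD) (hy x (mem_insert_self _ _))

/-- the matrix of a tournament -/
noncomputable def mat {V : Type} (dom : V → V → Prop) (x y : V) : ℤ :=
  open scoped Classical in if dom x y then 1 else 0

lemma mat_one {V : Type} {dom : V → V → Prop} {x y : V} (h : dom x y) : mat dom x y = 1 := by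
  unfold mat
  exact if_pos h

lemma mat_zero {V : Type} {dom : V → V → Prop} {x y : V} (h : ¬ dom x y) : mat dom x y = 0 := by
  unfold mat
  exact if_neg h

lemma mat_tn {V : Type} [Fintype V] [DecidableEq V] {dom : V → V → Prop} (hT : IsTournament dom) :
    Tn (mat dom) := by
  refine ⟨fun x y => ?_, fun x => mat_zero (hT.irrefl x), fun x y hxy => ?_⟩
  · by_cases h : dom x y
    · exact Or.inr (mat_one h)
    · exact Or.inl (mat_zero h)
  · have h := hT.exactly_one x y hxy
    by_cases h1 : dom x y
    · rw [mat_one h1, mat_zero (h.1 h1)]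
      norm_num
    · have h2 : dom y x := by
        by_contra h3
        exact h1 (h.2 h3)
      rw [mat_zero h1, mat_one h2]
      norm_num

/-- a tournament on `8 L + 11` vertices has a triple with fewer than `L` common dominators -/
lemma notL {V : Type} [Fintype V] {dom : V → V → Prop} (hT : IsTournament dom) {L : ℕ}
    (hL : 4 ≤ L) (hV : Fintype.card V = 8 * L + 11) (hS : DomBy dom 3 L) : False := by
  classical
  have hA := mat_tn hT
  have hT3 : T3 (mat dom) (L : ℤ) := by
    intro a b c hab hac hbc
    obtain ⟨D, hD, hDd⟩ := hS {a, b, c} card_le_three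
    have h1 : (L : ℤ) ≤ ∑ x ∈ D, (1 : ℤ) := by
      rw [sum_const, nsmul_eq_mul, mul_one]
      exact_mod_cast hD
    have h2 : ∑ x ∈ D, (1 : ℤ) = ∑ x ∈ D, mat dom x a * mat dom x b * mat dom x c := by
      refine sum_congr rfl fun x hx => ?_
      rw [mat_one (hDd x hx a (by simp)), mat_one (hDd x hx b (by simp)),
        mat_one (hDd x hx c (by simp))]
      norm_num
    have h3 : ∑ x ∈ D, mat dom x a * mat dom x b * mat dom x c ≤ d3 (mat dom) a b c := by
      unfold d3
      refine sum_le_sum_of_subset_of_nonneg (subset_univ _) fun x _ _ => ?_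
      exact mul_nonneg (mul_nonneg (hA.nn x a) (hA.nn x b)) (hA.nn x c)
    linarith
  exact noL hA (by exact_mod_cast hL) hT3 (by exact_mod_cast hV)

/-- adding vertices which are dominated by all the old vertices -/
def ext {V : Type} (dom : V → V → Prop) (m : ℕ) : V ⊕ Fin m → V ⊕ Fin m → Prop
  | .inl u, .inl v => dom u v
  | .inl _, .inr _ => True
  | .inr _, .inl _ => False
  | .inr s, .inr t => s < t

lemma ext_tournament {V : Type} {dom : V → V → Prop} (hT : IsTournament dom) (m : ℕ) :
    IsTournament (ext dom m) := by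
  refine ⟨?_, ?_⟩
  · rintro (v | v)
    · exact hT.irrefl v
    · exact lt_irrefl v
  · rintro (u | u) (v | v) huv
    · exact hT.exactly_one u v (fun h => huv (by rw [h]))
    · exact ⟨fun _ h => h, fun _ => trivial⟩
    · exact ⟨fun h => h.elim, fun h => (h trivial).elim⟩
    · change u < v ↔ ¬ v < u
      have hne : u ≠ v := fun h => huv (by rw [h])
      constructor
      · intro h
        exact not_lt.2 h.le
      · intro h
        exact lt_of_le_of_ne (not_lt.1 h) hne

lemma ext_domBy {V : Type} [Fintype V] {dom : V → V → Prop} {j L : ℕ} (hS : DomBy dom j L)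
    (m : ℕ) : DomBy (ext dom m) j L := by
  classical
  intro S hSc
  have hR : (univ.filter fun v : V => Sum.inl v ∈ S).card ≤ j := by
    refine le_trans ?_ hSc
    refine card_le_card_of_injOn Sum.inl ?_ ?_
    · intro v hv
      have := (mem_filter.1 hv).2
      exact this
    · intro u _ v _ h
      exact Sum.inl_injective h
  obtain ⟨D, h1, h2⟩ := hS _ hR
  refine ⟨D.map ⟨Sum.inl, Sum.inl_injective⟩, by rwa [card_map], ?_⟩
  intro x hx
  obtain ⟨y, hy, rfl⟩ := mem_map.1 hx
  rintro (v | v) hv
  · exact h2 y hy v (mem_filter.2 ⟨mem_univ _, hv⟩)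
  · exact trivial

/-- sets of three vertices -/
lemma base {V : Type} [Fintype V] {dom : V → V → Prop} (hT : IsTournament dom) {L : ℕ}
    (hL : 4 ≤ L) (hS : DomBy dom 3 L) : 8 * L + 12 ≤ Fintype.card V := by
  by_contra hcon
  push Not at hcon
  have h1 : Fintype.card (V ⊕ Fin (8 * L + 11 - Fintype.card V)) = 8 * L + 11 := by
    rw [Fintype.card_sum, Fintype.card_fin]
    omega
  exact notL (ext_tournament hT _) hL h1 (ext_domBy hS _)

/-- some vertex has at most `(n - 1) / 2` dominators -/
lemma small {V : Type} [Fintype V] {dom : V → V → Prop} (hT : IsTournament dom)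
    (hV : 0 < Fintype.card V) :
    ∃ v, 2 * Nat.card {x : V // dom x v} + 1 ≤ Fintype.card V := by
  classical
  by_contra hcon
  push Not at hcon
  simp only [Nat.card_eq_fintype_card, Fintype.card_subtype] at hcon
  have hA := mat_tn hT
  have h1 := quad hA (w := fun _ => (1 : ℤ)) (fun _ => Or.inr rfl)
  simp only [one_mul] at h1
  rw [sum_one] at h1
  have h2 : ∀ v, (Fintype.card V : ℤ) ≤ 2 * ∑ x, mat dom x v := by
    intro v
    have h3 : ∑ x, mat dom x v = ((univ.filter fun x => dom x v).card : ℤ) := by
      rw [card_filter]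
      push_cast
      refine sum_congr rfl fun x _ => ?_
      by_cases h : dom x v
      · rw [mat_one h, if_pos h]
      · rw [mat_zero h, if_neg h]
    rw [h3]
    have := hcon v
    have h4 : Fintype.card V ≤ 2 * (univ.filter fun x => dom x v).card := by omega
    exact_mod_cast h4
  have h3 := sum_le_sum fun v (_ : v ∈ (univ : Finset V)) => h2 v
  rw [sum_cst, ← mul_sum, h1] at h3
  have h4 : (0 : ℤ) < Fintype.card V := by exact_mod_cast hV
  nlinarith

/-- the halving recursion -/
lemma main (L : ℕ) (hL : 4 ≤ L) (j : ℕ) : ∀ (V : Type) [Fintype V] (dom : V → V → Prop),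
    IsTournament dom → DomBy dom (j + 3) L → 2 ^ j * (8 * L + 13) ≤ Fintype.card V + 1 := by
  classical
  induction j with
  | zero =>
    intro V _ dom hT hS
    have := base hT hL (by simpa using hS)
    rw [pow_zero, one_mul]
    omega
  | succ j ih =>
    intro V _ dom hT hS
    have hV : 0 < Fintype.card V := by
      obtain ⟨D, h1, -⟩ := hS ∅ (by simp)
      have h2 := card_le_univ D
      omega
    obtain ⟨v, hv⟩ := small hT hV
    have hT' : IsTournament (fun x y : {x : V // dom x v} => dom x.1 y.1) := by
      refine ⟨fun x => hT.irrefl x.1, fun x y hxy => hT.exactly_one x.1 y.1 ?_⟩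
      intro h
      exact hxy (Subtype.ext h)
    have hS' : DomBy (fun x y : {x : V // dom x v} => dom x.1 y.1) (j + 3) L := by
      intro R hR
      obtain ⟨D, h1, h2⟩ := hS (insert v (R.map (Function.Embedding.subtype _))) (by
        have h3 := card_insert_le v (R.map (Function.Embedding.subtype _))
        rw [card_map] at h3
        omega)
      refine ⟨D.subtype (fun x => dom x v), ?_, ?_⟩
      · rw [card_subtype, filter_true_of_mem]
        · exact h1
        · intro x hx
          exact h2 x hx v (mem_insert_self _ _)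
      · intro x hx s hs
        have hx' : x.1 ∈ D := mem_subtype.1 hx
        exact h2 x.1 hx' s.1 (mem_insert_of_mem (mem_map.2 ⟨s, hs, rfl⟩))
    have h3 := ih _ _ hT' hS'
    rw [← Nat.card_eq_fintype_card] at h3
    rw [pow_succ, mul_right_comm]
    omega

/-- For `k ≥ 4` a tournament with at least `k` vertices in which every set of `k` vertices is
dominated by a vertex has at least `2^(k-4) (8 k + 21) - 1` vertices. -/
theorem result {V : Type} [Fintype V] (dom : V → V → Prop) (hT : IsTournament dom) {k : ℕ}
    (hk : 4 ≤ k) (hV : k ≤ Fintype.card V) (hS : PropertyS dom k) :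
    2 ^ (k - 4) * (8 * k + 21) ≤ Fintype.card V + 1 := by
  have h1 := domBy_of_S hT (by omega) hV hS
  have h2 : k - 1 = k - 4 + 3 := by omega
  rw [h2] at h1
  have h3 := main (k + 1) (by omega) (k - 4) V dom hT h1
  have h4 : 8 * (k + 1) + 13 = 8 * k + 21 := by ring
  rwa [h4] at h3

end Pool.Agent.Results.MP_806e0d_co.EveryK
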