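import Mathlib

/-!
# Tournaments in which every `k`-set is dominated: order more than `(3/4) k 2^k`

Szekeres and Szekeres (1965) proved that a tournament with property `S_k` has at least
`2^(k-1) (k+2) - 1` vertices.  We show that for `k ≥ 10000` it has more than `(3/4) k 2^k` vertices.

For a set `B` of vertices let `D B` be the set of the common dominators of `B`.  If `a` is a lower
bound for `|D B'|` over all `B'` with `|B'| = |B| + 1`, then every vertex `y` dominates at most
`|D B| - a` vertices of `D B`, while every `k`-subset of `D B` is dominated by a vertex.  Hence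
`choose |D B| k ≤ n * choose (|D B| - a) k`, which forces `|D B|` to be larger than `2 a` by about
`k / 2` as long as `n` is at most `k 2^k`.
-/

namespace Pool.Agent.Results.MP_806e0d_co.ThreeQuarterBound

open Finset

/-- `dom` is the arc relation of a tournament: there are no loops, and for any two distinct
vertices exactly one of the two arcs is present. -/
structure IsTournament {V : Type*} (dom : V → V → Prop) : Prop where
  irrefl : ∀ v, ¬ dom v v
  exactly_one : ∀ u v, u ≠ v → (dom u v ↔ ¬ dom v u)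

/-- Property `S_k`: every set of exactly `k` vertices is dominated by some vertex. -/
def PropertyS {V : Type*} (dom : V → V → Prop) (k : ℕ) : Prop :=
  ∀ S : Finset V, S.card = k → ∃ x, ∀ s ∈ S, dom x s

open Classical in
/-- The set of common dominators of `B`. -/
noncomputable def D {V : Type*} [Fintype V] (dom : V → V → Prop) (B : Finset V) : Finset V :=
  univ.filter (fun x => ∀ b ∈ B, dom x b)

section comb

variable {V : Type*} [Fintype V] {dom : V → V → Prop} {k : ℕ}

lemma mem_D {B : Finset V} {x : V} : x ∈ D dom B ↔ ∀ b ∈ B, dom x b := by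
  classical
  simp [D]

lemma D_mono {B B' : Finset V} (h : B ⊆ B') : D dom B' ⊆ D dom B := by
  intro x hx
  rw [mem_D] at hx ⊢
  exact fun b hb => hx b (h hb)

omit [Fintype V] in
lemma asymm (hT : IsTournament dom) {u v : V} (h : dom u v) : ¬ dom v u := by
  have hne : u ≠ v := by
    rintro rfl
    exact hT.irrefl _ h
  exact (hT.exactly_one u v hne).1 h

/-- every set of at most `k` vertices has a dominator -/
lemma exists_dom (hS : PropertyS dom k) (hk : k ≤ Fintype.card V) {B : Finset V}
    (hB : B.card ≤ k) : ∃ x, ∀ b ∈ B, dom x b := by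
  classical
  obtain ⟨S, hBS, hS'⟩ := Finset.exists_superset_card_eq hB hk
  obtain ⟨x, hx⟩ := hS S hS'
  exact ⟨x, fun b hb => hx b (hBS hb)⟩

lemma base (hT : IsTournament dom) (hS : PropertyS dom k) (hk : k ≤ Fintype.card V)
    {B : Finset V} (hB : B.card + 1 = k) : k + 1 ≤ (D dom B).card := by
  classical
  by_contra hcon
  have hle : (D dom B).card ≤ k := by omega
  obtain ⟨z, hz⟩ := exists_dom hS hk hle
  obtain ⟨w0, hw0⟩ := exists_dom (B := B) hS hk (by omega)
  have hzB : z ∉ B := by
    intro hzB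
    have h1 : dom w0 z := hw0 z hzB
    have h2 : dom z w0 := hz w0 (mem_D.2 hw0)
    exact asymm hT h1 h2
  have hcard : (insert z B).card ≤ k := by
    rw [Finset.card_insert_of_notMem hzB]
    omega
  obtain ⟨w, hw⟩ := exists_dom hS hk hcard
  have h1 : dom w z := hw z (Finset.mem_insert_self _ _)
  have h2 : w ∈ D dom B := mem_D.2 (fun b hb => hw b (Finset.mem_insert_of_mem hb))
  exact asymm hT h1 (hz w h2)

lemma card_large (hT : IsTournament dom) (hS : PropertyS dom k) (hk : k ≤ Fintype.card V)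
    {B : Finset V} (hB : B.card + 1 ≤ k) : k + 1 ≤ (D dom B).card := by
  classical
  obtain ⟨B', hBB', hB'⟩ := Finset.exists_superset_card_eq (s := B) (n := k - 1)
    (by omega) (by omega)
  have h := base hT hS hk (B := B') (by omega)
  exact h.trans (Finset.card_le_card (D_mono hBB'))

/-- the covering inequality -/
lemma cover (hT : IsTournament dom) (hS : PropertyS dom k)
    {B : Finset V} {a : ℕ}
    (ha : ∀ B' : Finset V, B'.card = B.card + 1 → a ≤ (D dom B').card) :
    (D dom B).card.choose k ≤ Fintype.card V * ((D dom B).card - a).choose k := by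
  classical
  have hsub : powersetCard k (D dom B) ⊆
      (univ : Finset V).biUnion (fun y => powersetCard k ((D dom B).filter (fun x => dom y x))) := by
    intro K hK
    rw [mem_powersetCard] at hK
    obtain ⟨y, hy⟩ := hS K hK.2
    rw [mem_biUnion]
    refine ⟨y, mem_univ _, ?_⟩
    rw [mem_powersetCard]
    refine ⟨?_, hK.2⟩
    intro x hx
    rw [mem_filter]
    exact ⟨hK.1 hx, hy x hx⟩
  have hcardle : ∀ y : V, ((D dom B).filter (fun x => dom y x)).card ≤ (D dom B).card - a := by
    intro y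
    by_cases hyB : y ∈ B
    · have : (D dom B).filter (fun x => dom y x) = ∅ := by
        rw [Finset.filter_eq_empty_iff]
        intro x hx hyx
        exact asymm hT hyx (mem_D.1 hx y hyB)
      rw [this]
      simp
    · have h1 := ha (insert y B) (Finset.card_insert_of_notMem hyB)
      have h2 : D dom (insert y B) ⊆ (D dom B) := D_mono (Finset.subset_insert _ _)
      have h3 : Disjoint ((D dom B).filter (fun x => dom y x)) (D dom (insert y B)) := by
        rw [Finset.disjoint_left]
        intro x hx hx'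
        rw [mem_filter] at hx
        exact asymm hT hx.2 (mem_D.1 hx' y (Finset.mem_insert_self _ _))
      have h4 : ((D dom B).filter (fun x => dom y x)).card + (D dom (insert y B)).card
          ≤ (D dom B).card := by
        rw [← Finset.card_union_of_disjoint h3]
        exact Finset.card_le_card (Finset.union_subset (Finset.filter_subset _ _) h2)
      omega
  calc (D dom B).card.choose k = (powersetCard k (D dom B)).card := (card_powersetCard _ _).symm
    _ ≤ ((univ : Finset V).biUnion
        (fun y => powersetCard k ((D dom B).filter (fun x => dom y x)))).card :=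
        Finset.card_le_card hsub
    _ ≤ ∑ y : V, (powersetCard k ((D dom B).filter (fun x => dom y x))).card :=
        Finset.card_biUnion_le
    _ ≤ ∑ _y : V, ((D dom B).card - a).choose k := by
        apply Finset.sum_le_sum
        intro y _
        rw [card_powersetCard]
        exact Nat.choose_le_choose k (hcardle y)
    _ = Fintype.card V * ((D dom B).card - a).choose k := by
        simp

/-- the halving inequality of Szekeres and Szekeres -/
lemma halve (hT : IsTournament dom) {B : Finset V} {a : ℕ} (hne : 0 < (D dom B).card)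
    (ha : ∀ B' : Finset V, B'.card = B.card + 1 → a ≤ (D dom B').card) :
    2 * a + 1 ≤ (D dom B).card := by
  classical
  set m := (D dom B).card with hm
  have h1 : ∀ x ∈ D dom B, a ≤ ∑ y ∈ D dom B, (if dom y x then 1 else 0) := by
    intro x hx
    have hxB : x ∉ B := fun h => hT.irrefl x (mem_D.1 hx x h)
    have h2 := ha (insert x B) (Finset.card_insert_of_notMem hxB)
    have h3 : D dom (insert x B) = (D dom B).filter (fun y => dom y x) := by
      ext y
      rw [mem_filter, mem_D, mem_D]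
      constructor
      · intro h
        exact ⟨fun b hb => h b (Finset.mem_insert_of_mem hb), h x (Finset.mem_insert_self _ _)⟩
      · rintro ⟨h, h'⟩ b hb
        rcases Finset.mem_insert.1 hb with rfl | hb
        · exact h'
        · exact h b hb
    rw [h3, Finset.card_filter] at h2
    exact h2
  have h2 : m * a ≤ ∑ x ∈ D dom B, ∑ y ∈ D dom B, (if dom y x then 1 else 0) := by
    calc m * a = ∑ _x ∈ D dom B, a := by simp [hm]
      _ ≤ _ := Finset.sum_le_sum h1
  have h3 : ∑ x ∈ D dom B, ∑ y ∈ D dom B, (if dom y x then 1 else 0)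
      = ∑ x ∈ D dom B, ∑ y ∈ D dom B, (if dom x y then 1 else 0) := Finset.sum_comm
  have h4 : (∑ x ∈ D dom B, ∑ y ∈ D dom B, (if dom y x then 1 else 0))
      + (∑ x ∈ D dom B, ∑ y ∈ D dom B, (if dom x y then 1 else 0)) ≤ m * (m - 1) := by
    rw [← Finset.sum_add_distrib]
    have h5 : ∀ x ∈ D dom B, (∑ y ∈ D dom B, (if dom y x then 1 else 0))
      + (∑ y ∈ D dom B, (if dom x y then 1 else 0)) ≤ m - 1 := by
      intro x hx
      rw [← Finset.sum_add_distrib]
      have h6 : ∑ y ∈ D dom B, ((if dom y x then 1 else 0) + (if dom x y then 1 else 0))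
          ≤ ∑ y ∈ D dom B, (if y = x then 0 else 1) := by
        apply Finset.sum_le_sum
        intro y _
        by_cases hyx : y = x
        · subst hyx
          simp [hT.irrefl]
        · rw [if_neg hyx]
          by_cases h : dom y x
          · have := asymm hT h
            simp [h, this]
          · simp only [h, if_false, zero_add]
            split_ifs <;> omega
      refine h6.trans ?_
      have h7 : ∑ y ∈ D dom B, (if y = x then 0 else 1) = ((D dom B).filter (fun y => ¬ y = x)).card := by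
        rw [Finset.card_filter]
        apply Finset.sum_congr rfl
        intro y _
        by_cases hyx : y = x <;> simp [hyx]
      rw [h7, Finset.filter_ne', Finset.card_erase_of_mem hx]
    calc _ ≤ ∑ _x ∈ D dom B, (m - 1) := Finset.sum_le_sum h5
      _ = m * (m - 1) := by simp [hm]
  have h5 : m * (2 * a) ≤ m * (m - 1) := by
    rw [← h3] at h4
    nlinarith
  have h6 : 2 * a ≤ m - 1 := Nat.le_of_mul_le_mul_left h5 hne
  omega

end comb

section analysis

/-- product over a block of `L` consecutive terms -/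
lemma block (L : ℕ) (M N : ℝ) (hMN : N ≤ M) (hN : (L : ℝ) - 1 < N) :
    (M - ((L : ℝ) - 1) / 2) ^ L * ∏ t ∈ range L, (N - (t : ℝ)) ≤
      (N - ((L : ℝ) - 1) / 2) ^ L * ∏ t ∈ range L, (M - (t : ℝ)) := by
  rcases Nat.eq_zero_or_pos L with rfl | hL
  · simp
  have hL1 : (1 : ℝ) ≤ L := by exact_mod_cast hL
  set c : ℝ := ((L : ℝ) - 1) / 2 with hc
  have hNc : 0 < N - c := by rw [hc]; linarith
  have hMc : 0 < M - c := by linarith
  have hNt : ∀ t ∈ range L, 0 < N - (t : ℝ) := by
    intro t ht
    have : (t : ℝ) ≤ (L : ℝ) - 1 := by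
      have := mem_range.1 ht
      have h2 : t + 1 ≤ L := this
      have h3 : ((t : ℝ) + 1) ≤ L := by exact_mod_cast h2
      linarith
    linarith
  have hMt : ∀ t ∈ range L, 0 < M - (t : ℝ) := by
    intro t ht
    have := hNt t ht
    linarith
  have hPN : 0 < ∏ t ∈ range L, (N - (t : ℝ)) := Finset.prod_pos hNt
  have hPM : 0 < ∏ t ∈ range L, (M - (t : ℝ)) := Finset.prod_pos hMt
  have refl : ∀ X : ℝ, (∏ t ∈ range L, (X - (t : ℝ))) ^ 2
      = ∏ t ∈ range L, ((X - (t : ℝ)) * (X - (((L : ℝ) - 1) - (t : ℝ)))) := by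
    intro X
    rw [Finset.prod_mul_distrib, sq]
    congr 1
    rw [← Finset.prod_range_reflect]
    apply Finset.prod_congr rfl
    intro t ht
    have ht' : t + 1 ≤ L := mem_range.1 ht
    have : ((L - 1 - t : ℕ) : ℝ) = (L : ℝ) - 1 - t := by
      rw [Nat.cast_sub (by omega), Nat.cast_sub (by omega)]
      simp
    rw [this]
  have key : ((M - c) ^ L * ∏ t ∈ range L, (N - (t : ℝ))) ^ 2 ≤
      ((N - c) ^ L * ∏ t ∈ range L, (M - (t : ℝ))) ^ 2 := by
    rw [mul_pow, mul_pow, refl, refl]
    have e1 : ((M - c) ^ L) ^ 2 = ∏ _t ∈ range L, (M - c) ^ 2 := by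
      rw [Finset.prod_const, card_range, ← pow_mul, ← pow_mul, mul_comm]
    have e2 : ((N - c) ^ L) ^ 2 = ∏ _t ∈ range L, (N - c) ^ 2 := by
      rw [Finset.prod_const, card_range, ← pow_mul, ← pow_mul, mul_comm]
    rw [e1, e2, ← Finset.prod_mul_distrib, ← Finset.prod_mul_distrib]
    apply Finset.prod_le_prod
    · intro t ht
      have ht' : t + 1 ≤ L := mem_range.1 ht
      have h1 := hNt t ht
      have h2 := hNt (L - 1 - t) (mem_range.2 (by omega))
      have : ((L - 1 - t : ℕ) : ℝ) = (L : ℝ) - 1 - t := by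
        rw [Nat.cast_sub (by omega), Nat.cast_sub (by omega)]
        simp
      rw [this] at h2
      positivity
    · intro t ht
      have e3 : (N - (t : ℝ)) * (N - (((L : ℝ) - 1) - (t : ℝ))) = (N - c) ^ 2 - ((t : ℝ) - c) ^ 2 := by
        rw [hc]; ring
      have e4 : (M - (t : ℝ)) * (M - (((L : ℝ) - 1) - (t : ℝ))) = (M - c) ^ 2 - ((t : ℝ) - c) ^ 2 := by
        rw [hc]; ring
      rw [e3, e4]
      have h5 : (N - c) ^ 2 ≤ (M - c) ^ 2 := by
        apply pow_le_pow_left₀ hNc.le
        linarith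
      nlinarith [mul_le_mul_of_nonneg_right h5 (sq_nonneg ((t : ℝ) - c))]
  have h6 : 0 ≤ (N - c) ^ L * ∏ t ∈ range L, (M - (t : ℝ)) := by positivity
  exact le_of_sq_le_sq key h6

lemma descFactorial_real (m k : ℕ) (h : k ≤ m) :
    (m.descFactorial k : ℝ) = ∏ t ∈ range k, ((m : ℝ) - (t : ℝ)) := by
  rw [Nat.descFactorial_eq_prod_range, Nat.cast_prod]
  apply Finset.prod_congr rfl
  intro t ht
  have := mem_range.1 ht
  rw [Nat.cast_sub (by omega)]

lemma choose_to_prod {m a k n : ℕ} (hk0 : 0 < k) (hk : k ≤ m)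
    (h : m.choose k ≤ n * (m - a).choose k) :
    k + a ≤ m ∧ (∏ t ∈ range k, ((m : ℝ) - (t : ℝ))) ≤
      n * ∏ t ∈ range k, (((m : ℝ) - a) - (t : ℝ)) := by
  have hpos : 0 < m.choose k := Nat.choose_pos hk
  have hpos2 : 0 < (m - a).choose k := by
    rcases Nat.eq_zero_or_pos ((m - a).choose k) with h0 | h0
    · rw [h0] at h; omega
    · exact h0
  have hka : k ≤ m - a := by
    by_contra hcon
    rw [Nat.choose_eq_zero_of_lt (by omega)] at hpos2
    exact absurd hpos2 (lt_irrefl _)
  have ham : a ≤ m := by omega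
  refine ⟨by omega, ?_⟩
  have e1 : (m.descFactorial k) ≤ n * (m - a).descFactorial k := by
    rw [Nat.descFactorial_eq_factorial_mul_choose, Nat.descFactorial_eq_factorial_mul_choose]
    calc k.factorial * m.choose k ≤ k.factorial * (n * (m - a).choose k) :=
          Nat.mul_le_mul_left _ h
      _ = n * (k.factorial * (m - a).choose k) := by ring
  have e2 : ((m.descFactorial k : ℕ) : ℝ) ≤ (n : ℝ) * ((m - a).descFactorial k : ℕ) := by
    exact_mod_cast e1
  rw [descFactorial_real m k hk, descFactorial_real (m - a) k hka, Nat.cast_sub ham] at e2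
  exact e2

lemma pow_large (k : ℕ) (hk : 10000 ≤ k) : (k : ℝ) ≤ (1.001 : ℝ) ^ k := by
  induction k, hk using Nat.le_induction with
  | base =>
    have h1 : (1.1 : ℝ) ≤ (1.001 : ℝ) ^ 100 := by norm_num
    have h2 : (1.1 : ℝ) ^ 100 ≤ ((1.001 : ℝ) ^ 100) ^ 100 := pow_le_pow_left₀ (by norm_num) h1 100
    rw [← pow_mul] at h2
    have h3 : ((10000 : ℕ) : ℝ) ≤ (1.1 : ℝ) ^ 100 := by norm_num
    exact h3.trans h2
  | succ n hn ih =>
    rw [pow_succ]
    push_cast
    have h1 : (10000 : ℝ) ≤ n := by exact_mod_cast hn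
    nlinarith

lemma small_order {k n : ℕ} (hk : 10000 ≤ k) (hn : 4 * n ≤ 3 * k * 2 ^ k) :
    (n : ℝ) < (2.002 : ℝ) ^ k := by
  have h1 : (4 : ℝ) * n ≤ 3 * k * 2 ^ k := by exact_mod_cast hn
  have h2 := pow_large k hk
  have hk0 : (10000 : ℝ) ≤ k := by exact_mod_cast hk
  have h3 : (2.002 : ℝ) ^ k = 2 ^ k * (1.001 : ℝ) ^ k := by
    rw [← mul_pow]
    norm_num
  rw [h3]
  have h4 : (0 : ℝ) < 2 ^ k := by positivity
  have h5 : (k : ℝ) * 2 ^ k ≤ 2 ^ k * (1.001 : ℝ) ^ k := by
    rw [mul_comm]
    exact mul_le_mul_of_nonneg_left h2 h4.le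
  have h6 : 0 < (k : ℝ) * 2 ^ k := by positivity
  nlinarith

/-- the generic step -/
lemma step {k n m a : ℕ} (hk : 10000 ≤ k) (hn : 4 * n ≤ 3 * k * 2 ^ k) (hm : k ≤ m)
    (h : m.choose k ≤ n * (m - a).choose k) :
    ((k : ℝ) - 1) / 2 + 1.998 * a ≤ m := by
  obtain ⟨h1, h2⟩ := choose_to_prod (by omega) hm h
  have h3 := small_order hk hn
  have hk0 : (10000 : ℝ) ≤ k := by exact_mod_cast hk
  have h1' : (k : ℝ) + a ≤ m := by exact_mod_cast h1
  have ha0 : (0 : ℝ) ≤ a := Nat.cast_nonneg a
  have hb := block k (m : ℝ) ((m : ℝ) - a) (by linarith) (by linarith)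
  by_contra hcon
  push Not at hcon
  set c : ℝ := ((k : ℝ) - 1) / 2 with hc
  have hNc : 0 < (m : ℝ) - a - c := by rw [hc]; linarith
  have hR : 2.002 * ((m : ℝ) - a - c) ≤ (m : ℝ) - c := by
    nlinarith
  have hprodN : 0 < ∏ t ∈ range k, (((m : ℝ) - a) - (t : ℝ)) := by
    apply Finset.prod_pos
    intro t ht
    have := mem_range.1 ht
    have h2 : t + 1 ≤ k := this
    have h3 : ((t : ℝ) + 1) ≤ k := by exact_mod_cast h2
    linarith
  have h4 : ((m : ℝ) - c) ^ k ≤ n * ((m : ℝ) - a - c) ^ k := by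
    have h5 : ((m : ℝ) - c) ^ k * ∏ t ∈ range k, (((m : ℝ) - a) - (t : ℝ)) ≤
        (n * ((m : ℝ) - a - c) ^ k) * ∏ t ∈ range k, (((m : ℝ) - a) - (t : ℝ)) := by
      calc _ ≤ ((m : ℝ) - a - c) ^ k * ∏ t ∈ range k, ((m : ℝ) - (t : ℝ)) := hb
        _ ≤ ((m : ℝ) - a - c) ^ k * (n * ∏ t ∈ range k, (((m : ℝ) - a) - (t : ℝ))) :=
            mul_le_mul_of_nonneg_left h2 (by positivity)
        _ = _ := by ring
    exact le_of_mul_le_mul_right h5 hprodN
  have h5 : (2.002 : ℝ) ^ k * ((m : ℝ) - a - c) ^ k ≤ n * ((m : ℝ) - a - c) ^ k := by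
    refine le_trans ?_ h4
    rw [← mul_pow]
    exact pow_le_pow_left₀ (by positivity) hR k
  have h6 : (2.002 : ℝ) ^ k ≤ n := le_of_mul_le_mul_right h5 (by positivity)
  linarith

/-- the first step -/
lemma first_step {k n m a : ℕ} (hk : 10000 ≤ k) (hn : 4 * n ≤ 3 * k * 2 ^ k) (hm : k ≤ m)
    (ha : k ≤ a) (h : m.choose k ≤ n * (m - a).choose k) :
    2.54 * (k : ℝ) ≤ m := by
  obtain ⟨h1, h2⟩ := choose_to_prod (by omega) hm h
  have h3 := small_order hk hn
  have hk0 : (10000 : ℝ) ≤ k := by exact_mod_cast hk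
  have h1' : (k : ℝ) + a ≤ m := by exact_mod_cast h1
  have ha0 : (k : ℝ) ≤ a := by exact_mod_cast ha
  by_contra hcon
  push Not at hcon
  obtain ⟨q, hq⟩ : ∃ q, q = k / 2 := ⟨_, rfl⟩
  obtain ⟨r, hr⟩ : ∃ r, r = k - q := ⟨_, rfl⟩
  have hqr : q + r = k := by omega
  have hq2 : 2 * q ≤ k := by omega
  have hq3 : k ≤ 2 * q + 1 := by omega
  have hqr' : (q : ℝ) + r = k := by exact_mod_cast hqr
  have hq2' : 2 * (q : ℝ) ≤ k := by exact_mod_cast hq2
  have hq3' : (k : ℝ) ≤ 2 * q + 1 := by exact_mod_cast hq3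
  have hsplit : ∀ X : ℝ, ∏ t ∈ range k, (X - (t : ℝ)) =
      (∏ t ∈ range q, (X - (t : ℝ))) * ∏ t ∈ range r, ((X - q) - (t : ℝ)) := by
    intro X
    rw [← hqr, Finset.prod_range_add]
    congr 1
    apply Finset.prod_congr rfl
    intro t _
    push_cast
    ring
  rw [hsplit, hsplit] at h2
  have hb1 := block q (m : ℝ) ((m : ℝ) - a) (by linarith) (by linarith)
  have hb2 := block r ((m : ℝ) - q) ((m : ℝ) - a - q) (by linarith) (by linarith)
  set c1 : ℝ := ((q : ℝ) - 1) / 2 with hc1
  set c2 : ℝ := ((r : ℝ) - 1) / 2 with hc2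
  set A := ∏ t ∈ range q, ((m : ℝ) - (t : ℝ)) with hA
  set A' := ∏ t ∈ range q, ((m : ℝ) - a - (t : ℝ)) with hA'
  set C := ∏ t ∈ range r, ((m : ℝ) - q - (t : ℝ)) with hC
  set C' := ∏ t ∈ range r, ((m : ℝ) - a - q - (t : ℝ)) with hC'
  have hA'pos : 0 < A' := by
    apply Finset.prod_pos
    intro t ht
    have := mem_range.1 ht
    have h2 : t + 1 ≤ k := by omega
    have h3 : ((t : ℝ) + 1) ≤ k := by exact_mod_cast h2
    linarith
  have hC'pos : 0 < C' := by
    apply Finset.prod_pos
    intro t ht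
    have := mem_range.1 ht
    have h2 : t + 1 ≤ r := by omega
    have h3 : ((t : ℝ) + 1) ≤ r := by exact_mod_cast h2
    linarith
  have hN1 : 0 < (m : ℝ) - a - c1 := by rw [hc1]; linarith
  have hN2 : 0 < (m : ℝ) - a - q - c2 := by rw [hc2]; linarith
  have hM1 : 0 < (m : ℝ) - c1 := by linarith
  have hM2 : 0 < (m : ℝ) - q - c2 := by linarith
  have hR1 : 1.774 * ((m : ℝ) - a - c1) ≤ (m : ℝ) - c1 := by
    rw [hc1]
    nlinarith
  have hR2 : 2.264 * ((m : ℝ) - a - q - c2) ≤ (m : ℝ) - q - c2 := by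
    rw [hc2]
    nlinarith
  have h4 : ((m : ℝ) - c1) ^ q * ((m : ℝ) - q - c2) ^ r ≤
      n * (((m : ℝ) - a - c1) ^ q * ((m : ℝ) - a - q - c2) ^ r) := by
    have h5 : (((m : ℝ) - c1) ^ q * ((m : ℝ) - q - c2) ^ r) * (A' * C') ≤
        (n * (((m : ℝ) - a - c1) ^ q * ((m : ℝ) - a - q - c2) ^ r)) * (A' * C') := by
      calc _ = (((m : ℝ) - c1) ^ q * A') * (((m : ℝ) - q - c2) ^ r * C') := by ring
        _ ≤ (((m : ℝ) - a - c1) ^ q * A) * (((m : ℝ) - a - q - c2) ^ r * C) := by
            apply mul_le_mul hb1 hb2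
            · positivity
            · have : 0 ≤ ((m : ℝ) - c1) ^ q * A' := by positivity
              exact this.trans hb1
        _ = (((m : ℝ) - a - c1) ^ q * ((m : ℝ) - a - q - c2) ^ r) * (A * C) := by ring
        _ ≤ (((m : ℝ) - a - c1) ^ q * ((m : ℝ) - a - q - c2) ^ r) * (n * (A' * C')) := by
            apply mul_le_mul_of_nonneg_left h2
            positivity
        _ = _ := by ring
    exact le_of_mul_le_mul_right h5 (by positivity)
  have h5 : ((1.774 : ℝ) ^ q * (2.264 : ℝ) ^ r) *
      (((m : ℝ) - a - c1) ^ q * ((m : ℝ) - a - q - c2) ^ r) ≤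
      n * (((m : ℝ) - a - c1) ^ q * ((m : ℝ) - a - q - c2) ^ r) := by
    refine le_trans ?_ h4
    calc _ = (1.774 * ((m : ℝ) - a - c1)) ^ q * (2.264 * ((m : ℝ) - a - q - c2)) ^ r := by
          rw [mul_pow, mul_pow]; ring
      _ ≤ ((m : ℝ) - c1) ^ q * ((m : ℝ) - q - c2) ^ r := by
          apply mul_le_mul
          · exact pow_le_pow_left₀ (by positivity) hR1 q
          · exact pow_le_pow_left₀ (by positivity) hR2 r
          · positivity
          · positivity
  have h6 : (1.774 : ℝ) ^ q * (2.264 : ℝ) ^ r ≤ n :=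
    le_of_mul_le_mul_right h5 (by positivity)
  have h7 : (2.002 : ℝ) ^ k ≤ (1.774 : ℝ) ^ q * (2.264 : ℝ) ^ r := by
    have e1 : r = q + (r - q) := by omega
    have e2 : k = 2 * q + (r - q) := by omega
    rw [e1, e2, pow_add (2.002 : ℝ), pow_mul, pow_add (2.264 : ℝ), ← mul_assoc, ← mul_pow]
    have e3 : q + (r - q) - q = r - q := by omega
    apply mul_le_mul
    · apply pow_le_pow_left₀ (by positivity)
      norm_num
    · apply pow_le_pow_left₀ (by norm_num)
      norm_num
    · positivity
    · positivity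
  linarith

end analysis

section final

variable {V : Type*} [Fintype V] {dom : V → V → Prop} {k : ℕ}

/-- all sets of `k - i` vertices have at least `c` common dominators -/
def Lev (dom : V → V → Prop) (k i : ℕ) (c : ℝ) : Prop :=
  ∀ B : Finset V, B.card + i = k → c ≤ ((D dom B).card : ℝ)

lemma lev_step (hT : IsTournament dom) (hS : PropertyS dom k) (hkV : k ≤ Fintype.card V)
    (hk : 10000 ≤ k) (hn : 4 * Fintype.card V ≤ 3 * k * 2 ^ k) {i : ℕ} (hi : 1 ≤ i)
    {c c' : ℝ} (hc : Lev dom k i (c * k)) (hc' : c' ≤ 0.49995 + 1.998 * c) :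
    Lev dom k (i + 1) (c' * k) := by
  classical
  intro B hB
  have ha : ∀ B' : Finset V, B'.card = B.card + 1 → ⌈c * k⌉₊ ≤ (D dom B').card := by
    intro B' hB'
    exact Nat.ceil_le.2 (hc B' (by omega))
  have h1 := cover hT hS ha
  have h2 := card_large hT hS hkV (B := B) (by omega)
  have h3 := step hk hn (by omega) h1
  have h4 : c * k ≤ (⌈c * k⌉₊ : ℝ) := Nat.le_ceil _
  have hk0 : (10000 : ℝ) ≤ k := by exact_mod_cast hk
  nlinarith

lemma lev_halve (hT : IsTournament dom) (hS : PropertyS dom k) (hkV : k ≤ Fintype.card V)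
    {i : ℕ} (hi : 1 ≤ i) {c : ℝ} (hc : Lev dom k i c) : Lev dom k (i + 1) (2 * c) := by
  classical
  intro B hB
  have ha : ∀ B' : Finset V, B'.card = B.card + 1 → ⌈c⌉₊ ≤ (D dom B').card := by
    intro B' hB'
    exact Nat.ceil_le.2 (hc B' (by omega))
  have h2 := card_large hT hS hkV (B := B) (by omega)
  have h1 := halve hT (by omega) ha
  have h4 : c ≤ (⌈c⌉₊ : ℝ) := Nat.le_ceil _
  have h5 : ((2 * ⌈c⌉₊ + 1 : ℕ) : ℝ) ≤ ((D dom B).card : ℝ) := by exact_mod_cast h1
  push_cast at h5
  linarith

lemma lev_two (hT : IsTournament dom) (hS : PropertyS dom k) (hkV : k ≤ Fintype.card V)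
    (hk : 10000 ≤ k) (hn : 4 * Fintype.card V ≤ 3 * k * 2 ^ k) :
    Lev dom k 2 (2.54 * k) := by
  classical
  intro B hB
  have ha : ∀ B' : Finset V, B'.card = B.card + 1 → k ≤ (D dom B').card := by
    intro B' hB'
    have := card_large hT hS hkV (B := B') (by omega)
    omega
  have h1 := cover hT hS ha
  have h2 := card_large hT hS hkV (B := B) (by omega)
  exact first_step hk hn (by omega) le_rfl h1

lemma lev_iter (hT : IsTournament dom) (hS : PropertyS dom k) (hkV : k ≤ Fintype.card V)
    {i : ℕ} (hi : 1 ≤ i) {c : ℝ} (hc : Lev dom k i c) (j : ℕ) :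
    Lev dom k (i + j) (2 ^ j * c) := by
  induction j with
  | zero => simpa using hc
  | succ j ih =>
    have := lev_halve hT hS hkV (by omega) ih
    rw [pow_succ, ← add_assoc]
    convert this using 1
    ring

end final

/-- **Main result.**  Let `k ≥ 10000`.  Every finite tournament of order at least `k` with property
`S_k` (every `k`-set of vertices is dominated by a vertex) has more than `(3/4) k 2^k` vertices. -/
theorem result {V : Type} [Fintype V] (dom : V → V → Prop) (hT : IsTournament dom)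
    (k : ℕ) (hk : 10000 ≤ k) (hkV : k ≤ Fintype.card V) (hS : PropertyS dom k) :
    3 * k * 2 ^ k < 4 * Fintype.card V := by
  classical
  by_contra hcon
  push Not at hcon
  have l2 := lev_two hT hS hkV hk hcon
  have l3 := lev_step hT hS hkV hk hcon (by norm_num) l2 (c' := 5.5748) (by norm_num)
  have l4 := lev_step hT hS hkV hk hcon (by norm_num) l3 (c' := 11.6383) (by norm_num)
  have l5 := lev_step hT hS hkV hk hcon (by norm_num) l4 (c' := 23.7532) (by norm_num)
  have l6 := lev_step hT hS hkV hk hcon (by norm_num) l5 (c' := 47.9588) (by norm_num)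
  have l7 := lev_step hT hS hkV hk hcon (by norm_num) l6 (c' := 96.32) (by norm_num)
  have l8 := lev_iter hT hS hkV (by norm_num) l7 (k - 7)
  have h1 := l8 ∅ (by simp; omega)
  have h2 : ((D dom (∅ : Finset V)).card : ℝ) ≤ Fintype.card V := by
    exact_mod_cast Finset.card_le_univ _
  have hk0 : (10000 : ℝ) ≤ k := by exact_mod_cast hk
  have h3 : (2 : ℝ) ^ k = 2 ^ (k - 7) * 128 := by
    have : k = (k - 7) + 7 := by omega
    conv_lhs => rw [this]
    rw [pow_add]
    norm_num
  have h4 : (4 : ℝ) * Fintype.card V ≤ 3 * k * 2 ^ k := by exact_mod_cast hcon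
  have h5 : (0 : ℝ) < 2 ^ (k - 7) := by positivity
  rw [h3] at h4
  have h6 : (0 : ℝ) < 2 ^ (k - 7) * (k : ℝ) := by positivity
  nlinarith

end Pool.Agent.Results.MP_806e0d_co.ThreeQuarterBound
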